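import Pool.Agent.N900.LI.Mz

/-! Interpolation of Lipschitz operators between `L^β` and `L^α` over a finite measure space. -/

set_option autoImplicit false

open MeasureTheory Set Filter Topology
open scoped ENNReal NNReal

namespace Pool.Agent.N900.LI

variable {Ω : Type*} [MeasurableSpace Ω] {μ : Measure Ω} {E : Type*} [NormedAddCommGroup E]

lemma pow_eLpNorm (p : ℝ≥0∞) (hp0 : p ≠ 0) (hpt : p ≠ ∞) (v : Ω → E) :
    eLpNorm v p μ ^ p.toReal = ∫⁻ ω, ‖v ω‖ₑ ^ p.toReal ∂μ := by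
  have hp : 0 < p.toReal := ENNReal.toReal_pos hp0 hpt
  rw [eLpNorm_eq_lintegral_rpow_enorm_toReal hp0 hpt, ← ENNReal.rpow_mul, one_div_mul_cancel hp.ne',
    ENNReal.rpow_one]

lemma cheb (p : ℝ≥0∞) (hp0 : p ≠ 0) (hpt : p ≠ ∞) (M : ℝ≥0) (t : ℝ) (ht : 0 < t) (A v : Ω → E)
    (hA : AEStronglyMeasurable A μ) (hAv : eLpNorm A p μ ≤ M * eLpNorm v p μ) :
    μ {ω | t / 2 ≤ ‖A ω‖} ≤ ∫⁻ ω, ENNReal.ofReal ((2 * M * ‖v ω‖ / t) ^ p.toReal) ∂μ := by
  have hp : 0 < p.toReal := ENNReal.toReal_pos hp0 hpt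
  have ht2 : 0 < t / 2 := by positivity
  have h0 : ENNReal.ofReal (t / 2) ≠ 0 := by
    rw [Ne, ENNReal.ofReal_eq_zero, not_le]; exact ht2
  have h1 := meas_ge_le_mul_pow_eLpNorm_enorm μ hp0 hpt hA (ε := ENNReal.ofReal (t / 2)) h0
    (fun h => absurd h ENNReal.ofReal_ne_top)
  have e1 : {ω | t / 2 ≤ ‖A ω‖} = {ω | ENNReal.ofReal (t / 2) ≤ ‖A ω‖ₑ} := by
    ext ω
    simp only [mem_ofPred_eq]
    rw [← ofReal_norm, ENNReal.ofReal_le_ofReal_iff (norm_nonneg _)]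
  rw [e1]
  refine h1.trans ?_
  have h2 : eLpNorm A p μ ^ p.toReal ≤ ((M : ℝ≥0∞) * eLpNorm v p μ) ^ p.toReal :=
    ENNReal.rpow_le_rpow hAv hp.le
  refine (mul_le_mul_right h2 _).trans (le_of_eq ?_)
  rw [ENNReal.mul_rpow_of_nonneg _ _ hp.le, pow_eLpNorm p hp0 hpt, ← mul_assoc,
    ← ENNReal.mul_rpow_of_nonneg _ _ hp.le]
  have h3 : ((ENNReal.ofReal (t / 2))⁻¹ * (M : ℝ≥0∞)) ^ p.toReal ≠ ∞ := by
    apply ENNReal.rpow_ne_top_of_nonneg hp.le
    exact ENNReal.mul_ne_top (ENNReal.inv_ne_top.2 h0) ENNReal.coe_ne_top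
  rw [← lintegral_const_mul' _ _ h3]
  refine lintegral_congr fun ω => ?_
  rw [← ENNReal.mul_rpow_of_nonneg _ _ hp.le, ← ENNReal.ofReal_rpow_of_nonneg (by positivity) hp.le]
  congr 1
  rw [← ENNReal.ofReal_inv_of_pos ht2, ← ofReal_norm, ← ENNReal.ofReal_coe_nnreal,
    ← ENNReal.ofReal_mul (by positivity), ← ENNReal.ofReal_mul (by positivity)]
  congr 1
  field_simp

/-- A map `U` of `L^β` into itself which is Lipschitz, maps `L^α` into itself and is Lipschitz there -/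
structure LipOp (μ : Measure Ω) (β α : ℝ≥0∞) (M₀ M₁ : ℝ≥0) (U : Lp E β μ → Lp E β μ) : Prop where
  lip₀ : ∀ x y : Lp E β μ, eLpNorm (⇑(U x) - ⇑(U y)) β μ ≤ M₀ * eLpNorm (⇑x - ⇑y) β μ
  maps : ∀ x : Lp E β μ, MemLp x α μ → MemLp (U x) α μ
  lip₁ : ∀ x y : Lp E β μ, MemLp x α μ → MemLp y α μ →
    eLpNorm (⇑(U x) - ⇑(U y)) α μ ≤ M₁ * eLpNorm (⇑x - ⇑y) α μ

/-- the Lipschitz condition of `L^α` extends to all points of `L^β` -/
lemma extend [IsFiniteMeasure μ] {β α : ℝ≥0∞} (hβ1 : 1 ≤ β) (hβ : β ≠ ∞) {M₀ M₁ : ℝ≥0}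
    {U : Lp E β μ → Lp E β μ} (hU : LipOp μ β α M₀ M₁ U) (y b : Lp E β μ) (hb : MemLp b α μ) :
    eLpNorm (⇑(U (y + b)) - ⇑(U y)) α μ ≤ M₁ * eLpNorm b α μ := by
  have hβ0 : β ≠ 0 := (lt_of_lt_of_le one_pos hβ1).ne'
  have h1 : ∀ n : ℕ, ∃ g : Lp E β μ, MemLp g α μ ∧
      eLpNorm (⇑g - ⇑y) β μ ≤ ((n : ℝ≥0∞) + 1)⁻¹ := by
    intro n
    obtain ⟨g, hg1, hg2⟩ := (Lp.memLp y).exists_simpleFunc_eLpNorm_sub_lt hβ
      (ε := ((n : ℝ≥0∞) + 1)⁻¹) (ENNReal.inv_ne_zero.2 (by finiteness))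
    refine ⟨hg2.toLp _, ?_, ?_⟩
    · exact (memLp_congr_ae hg2.coeFn_toLp).2 (SimpleFunc.memLp_of_isFiniteMeasure g α μ)
    · have e : ⇑(hg2.toLp _) - ⇑y =ᵐ[μ] ⇑g - ⇑y := hg2.coeFn_toLp.sub (ae_eq_refl _)
      rw [eLpNorm_congr_ae e, eLpNorm_sub_comm]
      exact hg1.le
  choose g hg1 hg2 using h1
  have m1 : ∀ z : Lp E β μ, AEStronglyMeasurable z μ := fun z => Lp.aestronglyMeasurable z
  -- convergence of the differences in L^β
  have h2 : ∀ n, eLpNorm ((⇑(U (g n + b)) - ⇑(U (g n))) - (⇑(U (y + b)) - ⇑(U y))) β μ ≤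
      2 * M₀ * ((n : ℝ≥0∞) + 1)⁻¹ := by
    intro n
    have e1 : (⇑(U (g n + b)) - ⇑(U (g n))) - (⇑(U (y + b)) - ⇑(U y)) =
        (⇑(U (g n + b)) - ⇑(U (y + b))) - (⇑(U (g n)) - ⇑(U y)) := by abel
    rw [e1]
    refine (eLpNorm_sub_le ((m1 _).sub (m1 _)) ((m1 _).sub (m1 _)) hβ1).trans ?_
    have e2 : ⇑(g n + b) - ⇑(y + b) =ᵐ[μ] ⇑(g n) - ⇑y := by
      filter_upwards [Lp.coeFn_add (g n) b, Lp.coeFn_add y b] with ω h3 h4
      simp only [Pi.sub_apply, h3, h4, Pi.add_apply]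
      abel
    have h5 := hU.lip₀ (g n + b) (y + b)
    rw [eLpNorm_congr_ae e2] at h5
    have h6 := hU.lip₀ (g n) y
    calc _ ≤ M₀ * eLpNorm (⇑(g n) - ⇑y) β μ + M₀ * eLpNorm (⇑(g n) - ⇑y) β μ := add_le_add h5 h6
      _ = 2 * M₀ * eLpNorm (⇑(g n) - ⇑y) β μ := by ring
      _ ≤ _ := by gcongr; exact hg2 n
  have h3 : Tendsto (fun n => eLpNorm ((⇑(U (g n + b)) - ⇑(U (g n))) - (⇑(U (y + b)) - ⇑(U y))) β μ)
      atTop (𝓝 0) := by
    have h4 : Tendsto (fun n : ℕ => 2 * (M₀ : ℝ≥0∞) * ((n : ℝ≥0∞) + 1)⁻¹) atTop (𝓝 0) := by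
      have h5 : Tendsto (fun n : ℕ => ((n : ℝ≥0∞) + 1)⁻¹) atTop (𝓝 0) := by
        have h6 := ENNReal.tendsto_inv_nat_nhds_zero.comp (tendsto_add_atTop_nat 1)
        refine h6.congr fun n => ?_
        simp
      have h7 := ENNReal.Tendsto.const_mul (a := 2 * (M₀ : ℝ≥0∞)) h5 (Or.inr (by finiteness))
      rwa [mul_zero] at h7
    exact tendsto_of_tendsto_of_tendsto_of_le_of_le tendsto_const_nhds h4 (fun _ => zero_le) h2
  have h4 := tendstoInMeasure_of_tendsto_eLpNorm hβ0 (fun n => (m1 _).sub (m1 _)) ((m1 _).sub (m1 _)) h3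
  obtain ⟨ns, -, hae⟩ := h4.exists_seq_tendsto_ae
  have h5 := Lp.eLpNorm_lim_le_liminf_eLpNorm (p := α) (μ := μ)
    (f := fun k => ⇑(U (g (ns k) + b)) - ⇑(U (g (ns k)))) (fun n => (m1 _).sub (m1 _))
    (⇑(U (y + b)) - ⇑(U y)) hae
  refine h5.trans ?_
  have h6 : ∀ k, eLpNorm (⇑(U (g (ns k) + b)) - ⇑(U (g (ns k)))) α μ ≤ M₁ * eLpNorm b α μ := by
    intro k
    have h7 : MemLp (⇑(g (ns k) + b)) α μ := by
      refine (memLp_congr_ae (Lp.coeFn_add _ _)).2 ?_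
      exact (hg1 (ns k)).add hb
    have h8 := hU.lip₁ _ _ h7 (hg1 (ns k))
    refine h8.trans (le_of_eq ?_)
    congr 1
    apply eLpNorm_congr_ae
    filter_upwards [Lp.coeFn_add (g (ns k)) b] with ω h9
    simp only [Pi.sub_apply, h9, Pi.add_apply]
    abel
  calc atTop.liminf (fun k => eLpNorm (⇑(U (g (ns k) + b)) - ⇑(U (g (ns k)))) α μ)
      ≤ atTop.liminf (fun _ : ℕ => (M₁ : ℝ≥0∞) * eLpNorm b α μ) :=
        liminf_le_liminf (Eventually.of_forall h6)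
    _ = _ := liminf_const _

/-- the constant -/
noncomputable def CC (b g a : ℝ) : ℝ := 2 * (g / (g - b) + g / (a - g)) ^ (1 / g)

/-- **Lipschitz interpolation** -/
theorem main [IsFiniteMeasure μ] {β γ α : ℝ≥0∞} (hβ1 : 1 ≤ β) (hβγ : β < γ) (hγα : γ < α) (hα : α ≠ ∞)
    {M₀ M₁ : ℝ≥0} {U : Lp E β μ → Lp E β μ} (hU : LipOp μ β α M₀ M₁ U) (x y : Lp E β μ) :
    eLpNorm (⇑(U x) - ⇑(U y)) γ μ ≤
      ENNReal.ofReal (CC β.toReal γ.toReal α.toReal) * max M₀ M₁ * eLpNorm (⇑x - ⇑y) γ μ := by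
  have hγt : γ ≠ ∞ := (hγα.trans_le le_top).ne
  have hβt : β ≠ ∞ := (hβγ.trans_le le_top).ne
  have hβ0 : β ≠ 0 := (lt_of_lt_of_le one_pos hβ1).ne'
  have hγ0 : γ ≠ 0 := (lt_of_le_of_lt zero_le hβγ).ne'
  have hα0 : α ≠ 0 := (lt_of_le_of_lt zero_le hγα).ne'
  have hb : 0 < β.toReal := ENNReal.toReal_pos hβ0 hβt
  have hg : 0 < γ.toReal := ENNReal.toReal_pos hγ0 hγt
  have hbg : β.toReal < γ.toReal := (ENNReal.toReal_lt_toReal hβt hγt).2 hβγ
  have hga : γ.toReal < α.toReal := (ENNReal.toReal_lt_toReal hγt hα).2 hγα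
  have m1 : ∀ z : Lp E β μ, AEStronglyMeasurable z μ := fun z => Lp.aestronglyMeasurable z
  obtain ⟨M, hM⟩ : ∃ M : ℝ≥0, M = max M₀ M₁ := ⟨_, rfl⟩
  have hM0 : M₀ ≤ M := by rw [hM]; exact le_max_left _ _
  have hM1 : M₁ ≤ M := by rw [hM]; exact le_max_right _ _
  rw [← hM]
  rcases eq_zero_or_pos M with h0 | hMpos
  · have h1 : M₀ = 0 := le_antisymm (h0 ▸ hM0) zero_le
    have h2 := hU.lip₀ x y
    rw [h1, ENNReal.coe_zero, zero_mul] at h2
    have h3 := (eLpNorm_eq_zero_iff ((m1 (U x)).sub (m1 (U y))) hβ0).1 (le_antisymm h2 zero_le)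
    rw [eLpNorm_congr_ae h3]
    simp
  have hMr : (0 : ℝ) < M := hMpos
  -- the function z
  have hzm : StronglyMeasurable (⇑(x - y)) := Lp.stronglyMeasurable _
  obtain ⟨z, hz⟩ : ∃ z : Lp E β μ, z = x - y := ⟨_, rfl⟩
  rw [← hz] at hzm
  have hzae : ⇑z =ᵐ[μ] ⇑x - ⇑y := by rw [hz]; exact Lp.coeFn_sub x y
  obtain ⟨c, hc⟩ : ∃ c : Ω → ℝ, ∀ ω, c ω = 2 * M * ‖z ω‖ := ⟨_, fun _ => rfl⟩
  have hcm : Measurable c := by
    have : c = fun ω => 2 * M * ‖z ω‖ := funext hc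
    rw [this]
    exact hzm.norm.measurable.const_mul _
  have hc0 : ∀ ω, 0 ≤ c ω := fun ω => by rw [hc]; positivity
  have key := mz μ β.toReal γ.toReal α.toReal hb hbg hga c (fun ω => ‖(U x) ω - (U y) ω‖) hcm hc0
    (((m1 (U x)).sub (m1 (U y))).norm.aemeasurable) (fun _ => norm_nonneg _) ?_
  · -- conclusion
    have e1 : ∫⁻ ω, ENNReal.ofReal (‖(U x) ω - (U y) ω‖ ^ γ.toReal) ∂μ =
        eLpNorm (⇑(U x) - ⇑(U y)) γ μ ^ γ.toReal := by
      rw [pow_eLpNorm γ hγ0 hγt]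
      refine lintegral_congr fun ω => ?_
      rw [← ENNReal.ofReal_rpow_of_nonneg (norm_nonneg _) hg.le, ofReal_norm]
      rfl
    have e2 : ∫⁻ ω, ENNReal.ofReal (c ω ^ γ.toReal) ∂μ =
        (2 * (M : ℝ≥0∞) * eLpNorm (⇑x - ⇑y) γ μ) ^ γ.toReal := by
      rw [← eLpNorm_congr_ae hzae, ENNReal.mul_rpow_of_nonneg _ _ hg.le, pow_eLpNorm γ hγ0 hγt,
        ← lintegral_const_mul' _ _ (ENNReal.rpow_ne_top_of_nonneg hg.le (by finiteness))]
      refine lintegral_congr fun ω => ?_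
      rw [hc, ← ENNReal.mul_rpow_of_nonneg _ _ hg.le, ← ENNReal.ofReal_rpow_of_nonneg (by positivity) hg.le]
      congr 1
      rw [ENNReal.ofReal_mul (by positivity), ENNReal.ofReal_mul (by positivity), ofReal_norm]
      simp
    rw [e1, e2] at key
    have hK : 0 ≤ γ.toReal / (γ.toReal - β.toReal) + γ.toReal / (α.toReal - γ.toReal) := by
      have h1 : 0 < γ.toReal - β.toReal := by linarith
      have h2 : 0 < α.toReal - γ.toReal := by linarith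
      positivity
    have h2 := ENNReal.rpow_le_rpow key (one_div_nonneg.2 hg.le)
    rw [← ENNReal.rpow_mul, mul_one_div_cancel hg.ne', ENNReal.rpow_one,
      ENNReal.mul_rpow_of_nonneg _ _ (one_div_nonneg.2 hg.le), ← ENNReal.rpow_mul,
      mul_one_div_cancel hg.ne', ENNReal.rpow_one, ENNReal.ofReal_rpow_of_nonneg hK (one_div_nonneg.2 hg.le)] at h2
    refine h2.trans (le_of_eq ?_)
    unfold CC
    rw [ENNReal.ofReal_mul (by norm_num)]
    simp only [ENNReal.ofReal_ofNat]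
    ring
  · -- the distribution function
    intro t ht
    have hS : MeasurableSet {ω | t < c ω} := measurableSet_lt measurable_const hcm
    -- the bounded part
    have hbd : ∀ ω, ‖({ω | t < c ω}ᶜ.indicator (⇑z)) ω‖ ≤ t / (2 * M) := by
      intro ω
      by_cases h : t < c ω
      · rw [indicator_of_notMem (by simpa using h), norm_zero]
        positivity
      · rw [indicator_of_mem (by simpa using h)]
        rw [hc, not_lt] at h
        rw [le_div_iff₀ (by positivity)]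
        linarith
    have hbm : AEStronglyMeasurable ({ω | t < c ω}ᶜ.indicator (⇑z)) μ :=
      (hzm.indicator hS.compl).aestronglyMeasurable
    have hbp : ∀ p : ℝ≥0∞, MemLp ({ω | t < c ω}ᶜ.indicator (⇑z)) p μ := fun p =>
      MemLp.of_bound hbm _ (Eventually.of_forall hbd)
    obtain ⟨b, hbdef⟩ : ∃ b : Lp E β μ, b = (hbp β).toLp _ := ⟨_, rfl⟩
    have hbae : ⇑b =ᵐ[μ] {ω | t < c ω}ᶜ.indicator (⇑z) := by rw [hbdef]; exact (hbp β).coeFn_toLp
    have hbα : MemLp b α μ := (memLp_congr_ae hbae).2 (hbp α)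
    -- first part
    have hA : eLpNorm (⇑(U x) - ⇑(U (y + b))) β μ ≤ M * eLpNorm ({ω | t < c ω}.indicator (⇑z)) β μ := by
      refine (hU.lip₀ x (y + b)).trans ?_
      have e1 : ⇑x - ⇑(y + b) =ᵐ[μ] {ω | t < c ω}.indicator (⇑z) := by
        filter_upwards [Lp.coeFn_add y b, hbae, hzae] with ω h1 h2 h3
        simp only [Pi.sub_apply, h1, Pi.add_apply, h2]
        simp only [Pi.sub_apply] at h3
        by_cases h : t < c ω
        · rw [indicator_of_notMem (by simpa using h), indicator_of_mem (by simpa using h), h3]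
          abel
        · rw [indicator_of_mem (by simpa using h), indicator_of_notMem (by simpa using h), h3]
          abel
      rw [eLpNorm_congr_ae e1]
      gcongr
    have hB : eLpNorm (⇑(U (y + b)) - ⇑(U y)) α μ ≤ M * eLpNorm ({ω | t < c ω}ᶜ.indicator (⇑z)) α μ := by
      refine (extend hβ1 hβt hU y b hbα).trans ?_
      rw [eLpNorm_congr_ae hbae]
      gcongr
    have cA := cheb β hβ0 hβt M t ht _ _ ((m1 (U x)).sub (m1 (U (y + b)))) hA
    have cB := cheb α hα0 hα M t ht _ _ ((m1 (U (y + b))).sub (m1 (U y))) hB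
    have hsub : {ω | t < ‖(U x) ω - (U y) ω‖} ⊆
        {ω | t / 2 ≤ ‖(⇑(U x) - ⇑(U (y + b))) ω‖} ∪ {ω | t / 2 ≤ ‖(⇑(U (y + b)) - ⇑(U y)) ω‖} := by
      intro ω hω
      simp only [mem_ofPred_eq] at hω
      by_contra hcon
      simp only [mem_union, mem_ofPred_eq, not_or, not_le, Pi.sub_apply] at hcon
      have h1 : ‖(U x) ω - (U y) ω‖ ≤ ‖(U x) ω - (U (y + b)) ω‖ + ‖(U (y + b)) ω - (U y) ω‖ :=
        norm_sub_le_norm_sub_add_norm_sub _ _ _
      linarith [hcon.1, hcon.2]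
    refine (measure_mono hsub).trans ((measure_union_le _ _).trans (add_le_add (cA.trans ?_) (cB.trans ?_)))
    · refine lintegral_mono fun ω => ?_
      by_cases h : t < c ω
      · rw [if_pos h, indicator_of_mem (by simpa using h), hc]
      · rw [if_neg h, indicator_of_notMem (by simpa using h)]
        simp [Real.zero_rpow hb.ne']
    · refine lintegral_mono fun ω => ?_
      by_cases h : t < c ω
      · rw [if_pos h, indicator_of_notMem (by simpa using h)]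
        simp [Real.zero_rpow (ENNReal.toReal_pos hα0 hα).ne']
      · rw [if_neg h, indicator_of_mem (by simpa using h), hc]

end Pool.Agent.N900.LI
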