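import Mathlib

/-! The inequality of Marcinkiewicz for the `L^g` norm, from splittings at all levels. -/

set_option autoImplicit false

open MeasureTheory Set
open scoped ENNReal

namespace Pool.Agent.N900.LI

/-- the integral below the level -/
lemma int_low (b g : ℝ) (hb : 0 < b) (hbg : b < g) (c : ℝ) (hc : 0 ≤ c) :
    ∫⁻ t in Ioi (0 : ℝ), (if t < c then ENNReal.ofReal ((c / t) ^ b) else 0) * ENNReal.ofReal (t ^ (g - 1)) ≤
      ENNReal.ofReal (1 / (g - b)) * ENNReal.ofReal (c ^ g) := by
  have hgb : 0 < g - b := by linarith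
  rcases hc.eq_or_lt with rfl | hc
  · refine le_of_eq_of_le ?_ zero_le
    rw [setLIntegral_congr_fun (g := fun _ => 0) measurableSet_Ioi]
    · simp
    · intro t ht
      have : ¬ t < 0 := not_lt.2 (le_of_lt ht)
      simp [this]
  · have e1 : ∫⁻ t in Ioi (0 : ℝ), (if t < c then ENNReal.ofReal ((c / t) ^ b) else 0) *
        ENNReal.ofReal (t ^ (g - 1)) =
        ∫⁻ t in Ioo (0 : ℝ) c, ENNReal.ofReal (c ^ b * t ^ (g - 1 - b)) := by
      have e2 : ∀ t ∈ Ioi (0 : ℝ), (if t < c then ENNReal.ofReal ((c / t) ^ b) else 0) *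
          ENNReal.ofReal (t ^ (g - 1)) =
          (Iio c).indicator (fun t => ENNReal.ofReal (c ^ b * t ^ (g - 1 - b))) t := by
        intro t ht
        have ht0 : 0 < t := ht
        by_cases h : t < c
        · rw [if_pos h, indicator_of_mem (mem_Iio.2 h), ← ENNReal.ofReal_mul (by positivity)]
          congr 1
          rw [Real.div_rpow hc.le ht0.le, Real.rpow_sub ht0 (g - 1) b]
          field_simp
        · rw [if_neg h, indicator_of_notMem (by rw [mem_Iio]; exact h), zero_mul]
      rw [setLIntegral_congr_fun measurableSet_Ioi e2, setLIntegral_indicator measurableSet_Iio]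
      congr 2
      rw [inter_comm]
      rfl
    rw [e1]
    have hint : IntegrableOn (fun t : ℝ => c ^ b * t ^ (g - 1 - b)) (Ioo 0 c) := by
      have h1 : IntervalIntegrable (fun t : ℝ => t ^ (g - 1 - b)) volume 0 c :=
        intervalIntegral.intervalIntegrable_rpow' (by linarith)
      rw [intervalIntegrable_iff_integrableOn_Ioo_of_le hc.le] at h1
      exact h1.const_mul _
    have hnn : ∀ᵐ t ∂(volume.restrict (Ioo 0 c)), 0 ≤ c ^ b * t ^ (g - 1 - b) := by
      rw [ae_restrict_iff' measurableSet_Ioo]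
      refine Filter.Eventually.of_forall fun t ht => ?_
      have := ht.1
      positivity
    rw [← ofReal_integral_eq_lintegral_ofReal hint hnn]
    have e3 : ∫ t in Ioo (0 : ℝ) c, c ^ b * t ^ (g - 1 - b) = 1 / (g - b) * c ^ g := by
      rw [← integral_Ioc_eq_integral_Ioo, ← intervalIntegral.integral_of_le hc.le,
        intervalIntegral.integral_const_mul, integral_rpow (Or.inl (by linarith))]
      have e4 : g - 1 - b + 1 = g - b := by ring
      rw [e4, Real.zero_rpow hgb.ne', sub_zero, ← mul_div_assoc, ← Real.rpow_add hc]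
      rw [show b + (g - b) = g by ring]
      ring
    rw [e3, ENNReal.ofReal_mul (by positivity)]

/-- the integral above the level -/
lemma int_high (a g : ℝ) (ha : 0 < a) (hga : g < a) (c : ℝ) (hc : 0 ≤ c) :
    ∫⁻ t in Ioi (0 : ℝ), (if t < c then 0 else ENNReal.ofReal ((c / t) ^ a)) * ENNReal.ofReal (t ^ (g - 1)) ≤
      ENNReal.ofReal (1 / (a - g)) * ENNReal.ofReal (c ^ g) := by
  have hag : 0 < a - g := by linarith
  rcases hc.eq_or_lt with rfl | hc
  · refine le_of_eq_of_le ?_ zero_le
    rw [setLIntegral_congr_fun (g := fun _ => 0) measurableSet_Ioi]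
    · simp
    · intro t ht
      have : ¬ t < 0 := not_lt.2 (le_of_lt ht)
      simp [this, Real.zero_rpow ha.ne']
  · have e1 : ∫⁻ t in Ioi (0 : ℝ), (if t < c then 0 else ENNReal.ofReal ((c / t) ^ a)) *
        ENNReal.ofReal (t ^ (g - 1)) =
        ∫⁻ t in Ici c, ENNReal.ofReal (c ^ a * t ^ (g - 1 - a)) := by
      have e2 : ∀ t ∈ Ioi (0 : ℝ), (if t < c then 0 else ENNReal.ofReal ((c / t) ^ a)) *
          ENNReal.ofReal (t ^ (g - 1)) =
          (Ici c).indicator (fun t => ENNReal.ofReal (c ^ a * t ^ (g - 1 - a))) t := by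
        intro t ht
        have ht0 : 0 < t := ht
        by_cases h : t < c
        · rw [if_pos h, indicator_of_notMem (by rw [mem_Ici]; exact not_le.2 h), zero_mul]
        · rw [if_neg h, indicator_of_mem (mem_Ici.2 (not_lt.1 h)), ← ENNReal.ofReal_mul (by positivity)]
          congr 1
          rw [Real.div_rpow hc.le ht0.le, Real.rpow_sub ht0 (g - 1) a]
          field_simp
      rw [setLIntegral_congr_fun measurableSet_Ioi e2, setLIntegral_indicator measurableSet_Ici]
      congr 2
      ext t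
      simp only [mem_inter_iff, mem_Ici, mem_Ioi, and_iff_left_iff_imp]
      intro h
      linarith
    rw [e1, setLIntegral_congr Ioi_ae_eq_Ici.symm]
    have hint : IntegrableOn (fun t : ℝ => c ^ a * t ^ (g - 1 - a)) (Ioi c) :=
      (integrableOn_Ioi_rpow_of_lt (by linarith) hc).const_mul _
    have hnn : ∀ᵐ t ∂(volume.restrict (Ioi c)), 0 ≤ c ^ a * t ^ (g - 1 - a) := by
      rw [ae_restrict_iff' measurableSet_Ioi]
      refine Filter.Eventually.of_forall fun t ht => ?_
      have : 0 < t := hc.trans ht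
      positivity
    rw [← ofReal_integral_eq_lintegral_ofReal hint hnn]
    have e3 : ∫ t in Ioi c, c ^ a * t ^ (g - 1 - a) = 1 / (a - g) * c ^ g := by
      rw [integral_const_mul, integral_Ioi_rpow_of_lt (by linarith) hc]
      have e4 : g - 1 - a + 1 = g - a := by ring
      rw [e4]
      have e5 : c ^ a * (-c ^ (g - a) / (g - a)) = c ^ a * c ^ (g - a) / (a - g) := by
        rw [← neg_div_neg_eq, neg_neg, neg_sub]
        ring
      rw [e5, ← Real.rpow_add hc, show a + (g - a) = g by ring]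
      ring
    rw [e3, ENNReal.ofReal_mul (by positivity)]

/-- **Marcinkiewicz**: the bounds for the distribution function at all levels give the bound of the norm -/
theorem mz {Ω : Type*} [MeasurableSpace Ω] (μ : Measure Ω) [SFinite μ] (b g a : ℝ) (hb : 0 < b)
    (hbg : b < g) (hga : g < a) (c h : Ω → ℝ) (hc : Measurable c) (hc0 : ∀ x, 0 ≤ c x)
    (hh : AEMeasurable h μ) (hh0 : ∀ x, 0 ≤ h x)
    (hyp : ∀ t : ℝ, 0 < t → μ {x | t < h x} ≤
      ∫⁻ x, (if t < c x then ENNReal.ofReal ((c x / t) ^ b) else 0) ∂μ +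
      ∫⁻ x, (if t < c x then 0 else ENNReal.ofReal ((c x / t) ^ a)) ∂μ) :
    ∫⁻ x, ENNReal.ofReal (h x ^ g) ∂μ ≤
      ENNReal.ofReal (g / (g - b) + g / (a - g)) * ∫⁻ x, ENNReal.ofReal (c x ^ g) ∂μ := by
  have hg : 0 < g := by linarith
  have ha : 0 < a := by linarith
  have hgb : 0 < g - b := by linarith
  have hag : 0 < a - g := by linarith
  rw [lintegral_rpow_eq_lintegral_meas_lt_mul μ (Filter.Eventually.of_forall hh0) hh hg]
  -- measurability of the kernels
  have m1 : Measurable (fun z : ℝ × Ω => (if z.1 < c z.2 then ENNReal.ofReal ((c z.2 / z.1) ^ b) else 0) *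
      ENNReal.ofReal (z.1 ^ (g - 1))) := by
    refine Measurable.mul (Measurable.ite (measurableSet_lt measurable_fst (hc.comp measurable_snd)) ?_
      measurable_const) ?_
    · exact (((hc.comp measurable_snd).div measurable_fst).pow_const b).ennreal_ofReal
    · exact (measurable_fst.pow_const _).ennreal_ofReal
  have m2 : Measurable (fun z : ℝ × Ω => (if z.1 < c z.2 then 0 else ENNReal.ofReal ((c z.2 / z.1) ^ a)) *
      ENNReal.ofReal (z.1 ^ (g - 1))) := by
    refine Measurable.mul (Measurable.ite (measurableSet_lt measurable_fst (hc.comp measurable_snd))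
      measurable_const ?_) ?_
    · exact (((hc.comp measurable_snd).div measurable_fst).pow_const a).ennreal_ofReal
    · exact (measurable_fst.pow_const _).ennreal_ofReal
  have k1 : ∀ t : ℝ, Measurable (fun x => (if t < c x then ENNReal.ofReal ((c x / t) ^ b) else 0)) :=
    fun t => Measurable.ite (measurableSet_lt measurable_const hc)
      ((hc.div_const t).pow_const b).ennreal_ofReal measurable_const
  have k2 : ∀ t : ℝ, Measurable (fun x => (if t < c x then 0 else ENNReal.ofReal ((c x / t) ^ a))) :=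
    fun t => Measurable.ite (measurableSet_lt measurable_const hc) measurable_const
      ((hc.div_const t).pow_const a).ennreal_ofReal
  have h1 : ∫⁻ t in Ioi (0 : ℝ), μ {x | t < h x} * ENNReal.ofReal (t ^ (g - 1)) ≤
      ∫⁻ t in Ioi (0 : ℝ), ((∫⁻ x, (if t < c x then ENNReal.ofReal ((c x / t) ^ b) else 0) *
        ENNReal.ofReal (t ^ (g - 1)) ∂μ) +
        ∫⁻ x, (if t < c x then 0 else ENNReal.ofReal ((c x / t) ^ a)) * ENNReal.ofReal (t ^ (g - 1)) ∂μ) := by
    refine setLIntegral_mono' measurableSet_Ioi fun t ht => ?_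
    rw [lintegral_mul_const _ (k1 t), lintegral_mul_const _ (k2 t), ← add_mul]
    exact mul_le_mul_left (hyp t ht) _
  have h2 : ∫⁻ t in Ioi (0 : ℝ), ((∫⁻ x, (if t < c x then ENNReal.ofReal ((c x / t) ^ b) else 0) *
        ENNReal.ofReal (t ^ (g - 1)) ∂μ) +
        ∫⁻ x, (if t < c x then 0 else ENNReal.ofReal ((c x / t) ^ a)) * ENNReal.ofReal (t ^ (g - 1)) ∂μ) =
      (∫⁻ x, (∫⁻ t in Ioi (0 : ℝ), (if t < c x then ENNReal.ofReal ((c x / t) ^ b) else 0) *
        ENNReal.ofReal (t ^ (g - 1))) ∂μ) +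
      ∫⁻ x, (∫⁻ t in Ioi (0 : ℝ), (if t < c x then 0 else ENNReal.ofReal ((c x / t) ^ a)) *
        ENNReal.ofReal (t ^ (g - 1))) ∂μ := by
    rw [lintegral_add_left (m1.lintegral_prod_right')]
    congr 1
    · exact lintegral_lintegral_swap
        (f := fun (t : ℝ) (x : Ω) => (if t < c x then ENNReal.ofReal ((c x / t) ^ b) else 0) *
        ENNReal.ofReal (t ^ (g - 1))) m1.aemeasurable
    · exact lintegral_lintegral_swap
        (f := fun (t : ℝ) (x : Ω) => (if t < c x then 0 else ENNReal.ofReal ((c x / t) ^ a)) *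
        ENNReal.ofReal (t ^ (g - 1))) m2.aemeasurable
  have h3 : ∫⁻ x, (∫⁻ t in Ioi (0 : ℝ), (if t < c x then ENNReal.ofReal ((c x / t) ^ b) else 0) *
        ENNReal.ofReal (t ^ (g - 1))) ∂μ ≤
      ENNReal.ofReal (1 / (g - b)) * ∫⁻ x, ENNReal.ofReal (c x ^ g) ∂μ := by
    rw [← lintegral_const_mul _ (hc.pow_const g).ennreal_ofReal]
    exact lintegral_mono fun x => int_low b g hb hbg (c x) (hc0 x)
  have h4 : ∫⁻ x, (∫⁻ t in Ioi (0 : ℝ), (if t < c x then 0 else ENNReal.ofReal ((c x / t) ^ a)) *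
        ENNReal.ofReal (t ^ (g - 1))) ∂μ ≤
      ENNReal.ofReal (1 / (a - g)) * ∫⁻ x, ENNReal.ofReal (c x ^ g) ∂μ := by
    rw [← lintegral_const_mul _ (hc.pow_const g).ennreal_ofReal]
    exact lintegral_mono fun x => int_high a g ha hga (c x) (hc0 x)
  calc ENNReal.ofReal g * ∫⁻ t in Ioi (0 : ℝ), μ {x | t < h x} * ENNReal.ofReal (t ^ (g - 1))
      ≤ ENNReal.ofReal g * (ENNReal.ofReal (1 / (g - b)) * ∫⁻ x, ENNReal.ofReal (c x ^ g) ∂μ +
        ENNReal.ofReal (1 / (a - g)) * ∫⁻ x, ENNReal.ofReal (c x ^ g) ∂μ) := by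
        gcongr
        exact (h1.trans_eq h2).trans (add_le_add h3 h4)
    _ = _ := by
        rw [← add_mul, ← ENNReal.ofReal_add (by positivity) (by positivity), ← mul_assoc,
          ← ENNReal.ofReal_mul hg.le]
        congr 2
        ring

end Pool.Agent.N900.LI
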